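import Mathlib
import Pool.Agent.Q58.OAO.Defs
import Pool.Agent.Q58.OAO.Main

/-!
# Joins of orthogonally additive operators and the Dedekind completion

There are Riesz spaces `E` and `F`, with `F` Archimedean, and orthogonally additive maps
`S, T : E → F` whose join `U` in the ordered space of all orthogonally additive maps exists, an
`x` in `E` and a `g` in `F` such that `S u + T v ≤ g` for all disjoint decompositions
`x = u ⊔ v`, while `U x = 2 g` and `0 < g`.  Hence in every Dedekind completion of `F` the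
supremum `R₁ x` of the elements `S u + T v` is strictly smaller than `U x`.
-/

namespace Pool.Agent.Results.MP_78978c_an.StrictlySmaller

open Pool.Agent.Q58.OAO

universe u

theorem result : ∃ (E F : Type) (_ : AddCommGroup E) (_ : Lattice E) (_ : Module ℝ E)
    (_ : AddCommGroup F) (_ : Lattice F) (_ : Module ℝ F),
    IsRiesz E ∧ IsRiesz F ∧ IsArch F ∧
    ∃ S T U : E → F, OrthAdd S ∧ OrthAdd T ∧ IsJoin S T U ∧
      ∃ x : E, (∃ g : F, 0 < g ∧ U x = 2 • g ∧ ∀ u v, IsDisjSum x u v → S u + T v ≤ g) ∧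
        ∀ (G : Type u) (_ : AddCommGroup G) (_ : Lattice G) (_ : Module ℝ G), IsRiesz G →
          ∀ J : F →ₗ[ℝ] G, IsDedekindCompletion J →
            ∃ R₁ : G, IsLUB {h | ∃ u v, IsDisjSum x u v ∧ h = J (S u) + J (T v)} R₁ ∧
              R₁ < J (U x) := by
  refine ⟨Q58.OAO.E, Q58.OAO.F, inferInstance, inferInstance, inferInstance, inferInstance,
    inferInstance, inferInstance, E_riesz, F_riesz, F_arch, S, 0, U, S_add, zero_add', isJoin,
    one1, ?_, ?_⟩
  · refine ⟨cst (1 / 2), ?_, ?_, ?_⟩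
    · refine lt_of_le_of_ne (fun t => ?_) fun h => ?_
      · show (0:ℝ) ≤ 1 / 2
        norm_num
      · have h1 : (0 : Q58.OAO.F).1 [] = (cst (1 / 2)).1 [] := by rw [← h]
        have h2 : (0:ℝ) = 1 / 2 := h1
        norm_num at h2
    · rw [U_one1]
      apply Subtype.ext
      funext t
      show (1:ℝ) = (2 • fun _ : K => (1 / 2 : ℝ)) t
      simp
    · intro u v _
      show S u + 0 ≤ _
      rw [add_zero]
      exact S_le_half u
  · intro G _ _ _ hG J hJ
    have hmono : ∀ a b : Q58.OAO.F, a ≤ b → J a ≤ J b := by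
      intro a b hab
      have h1 := hJ.map_sup a b
      rw [sup_eq_right.2 hab] at h1
      rw [h1]; exact le_sup_left
    have hub : J (cst (1 / 2)) ∈
        upperBounds {h | ∃ u v, IsDisjSum one1 u v ∧ h = J (S u) + J ((0 : Q58.OAO.E → Q58.OAO.F) v)} := by
      rintro _ ⟨u, v, _, rfl⟩
      show J (S u) + J 0 ≤ _
      rw [map_zero, add_zero]
      exact hmono _ _ (S_le_half u)
    obtain ⟨R, hR⟩ := hJ.complete {h | ∃ u v, IsDisjSum one1 u v ∧
      h = J (S u) + J ((0 : Q58.OAO.E → Q58.OAO.F) v)}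
      ⟨_, one1, 0, ⟨by abel, by simp⟩, rfl⟩ ⟨_, hub⟩
    refine ⟨R, hR, lt_of_le_of_lt (hR.2 hub) ?_⟩
    rw [U_one1]
    refine lt_of_le_of_ne (hmono _ _ fun t => ?_) fun h => ?_
    · show (1 / 2 : ℝ) ≤ 1
      norm_num
    · have h1 := hJ.injective h
      have h2 : (cst (1 / 2)).1 [] = (cst 1).1 [] := by rw [h1]
      have h3 : (1 / 2 : ℝ) = 1 := h2
      norm_num at h3

end Pool.Agent.Results.MP_78978c_an.StrictlySmaller
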